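import Pool.Agent.H.MP_593132_lc.B

namespace Pool.Agent.Results.MP_593132_lc.CountEnd
open Pool.Agent.Lib.CX

theorem result : SharpPComplete fun a : {a : Gr // IsPartialOrder (Fin a.n) a.arc} =>
    Nat.card (a.1.arc →r a.1.arc) := by
  constructor
  · obtain ⟨q, V, h1, h2⟩ := H.MP_593132_lc.end_sharp
    exact ⟨q, fun p => V (p.1.1, p.2), by fun_prop, fun a => h2 a.1⟩
  have h := H.MP_593132_lc.pt_po (V := ℕ × Cell)
  have h' : PT fun φ : List (Cl3 (ℕ × Cell)) => H.MP_593132_lc.ch (H.MP_593132_lc.po φ) :=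
    PT.comp (f := H.MP_593132_lc.ch) (by unfold H.MP_593132_lc.ch; fun_prop) h
  refine SharpPHard.of_cnt3 (fun φ => [⟨_, H.MP_593132_lc.po_po φ⟩, ⟨_, H.MP_593132_lc.ch_po _ (H.MP_593132_lc.po_po φ)⟩])
    (fun p => (p.2.getD 1 0 / H.MP_593132_lc.pairs (H.MP_593132_lc.ch (H.MP_593132_lc.po p.1)) - p.2.getD 0 0) %
      2 ^ ((H.MP_593132_lc.vars p.1).length + 1))
    ((PT.subtype h _).cons ((PT.subtype h' _).cons (PT.const _))) ?_ fun φ hφ => ?_
  · have : PT H.MP_593132_lc.pairs := by unfold H.MP_593132_lc.pairs; fun_prop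
    exact ((PT.div (by fun_prop) ((this.comp h').comp PT.fst')).sub (by fun_prop)).mod
      (by unfold H.MP_593132_lc.vars Cl3.vars; fun_prop)
  · obtain ⟨t, ht⟩ := H.MP_593132_lc.po_conn φ hφ
    rw [H.MP_593132_lc.cnt_eq φ hφ, H.MP_593132_lc.ups_eq _ (H.MP_593132_lc.po_po φ) t ht]
    rfl

end Pool.Agent.Results.MP_593132_lc.CountEnd
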